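import Pool.Agent.H240.BR.Def

/-!
# Compatibility with the union of the domain and of the strip implies compatibility with the domain

The statement `StCmpG` of `Pool.Agent.H240.BR.Def`.
-/

set_option autoImplicit false

open Set Filter Topology

noncomputable section

namespace Pool.Agent.H945.BR

open Pool.Agent.Y262.EG Pool.Agent.Y262.QE
open Pool.Agent.H240.AL Pool.Agent.H240.GV Pool.Agent.H240.BR

/-- the strip is open -/
theorem csx_open (x0 δ : ℝ) : IsOpen (Sx x0 δ) := by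
  have h : Continuous fun z : ℂ => |z.re - x0| :=
    (Complex.continuous_re.sub continuous_const).abs
  exact isOpen_lt h continuous_const

/-- the points of the union outside of the domain -/
theorem cmem_uo {Ω : Set ℂ} {R0 δ : ℝ} {w : ℂ} (h : w ∈ Uo Ω R0 δ) (hw : w ∉ Ω) :
    w ∈ Sx (R0 + δ) δ := by
  rcases h with h | h
  · exact absurd h hw
  · exact h

section

variable {M : Type} {Ω : Set ℂ} {φ : ℂ → ℝ} {pr : ℂ → M} {Γ : ℂ → ℂ} {R0 δ : ℝ}

theorem cuf_in {z : ℂ} (hz : z ∈ Ω) : Uf Ω φ Γ R0 δ z = φ z := by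
  unfold Uf
  rw [if_pos hz]

theorem cup_in {z : ℂ} (hz : z ∈ Ω) : Up Ω pr Γ R0 δ z = pr z := by
  unfold Up
  rw [if_pos hz]

theorem cout_of (hR : ∀ z ∈ Ω, z.re < R0) {z : ℂ} (hz : z ∈ Sx (R0 + δ) δ) : z ∉ Ω := by
  intro h
  have h1 := hR z h
  have h2 : |z.re - (R0 + δ)| < δ := hz
  have := (abs_lt.1 h2).1
  linarith

theorem cuf_out {z : ℂ} (hz : z ∉ Ω) :
    Uf Ω φ Γ R0 δ z = Pb φ Γ (z - ((R0 + δ : ℝ) : ℂ)) := by
  unfold Uf
  rw [if_neg hz]

theorem cup_out {z : ℂ} (hz : z ∉ Ω) :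
    Up Ω pr Γ R0 δ z = pr (Γ (z - ((R0 + δ : ℝ) : ℂ))) := by
  unfold Up
  rw [if_neg hz]

theorem csh_mem {z : ℂ} (hz : z ∈ Sx (R0 + δ) δ) : z - ((R0 + δ : ℝ) : ℂ) ∈ Sx 0 δ := by
  show |(z - ((R0 + δ : ℝ) : ℂ)).re - 0| < δ
  rw [Complex.sub_re, Complex.ofReal_re, sub_zero]
  exact hz

end

/-- BR-4 -/
theorem stCmpG : StCmpG := by
  intro M P _ _ _ _ Ω φ pr q Γ δ R0 hUT hCg hR D g hT hC i
  classical
  obtain ⟨b, hb, h⟩ := hC i
  set c : ℂ := ((R0 + δ : ℝ) : ℂ) with hc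
  set T : Set ℂ := D.T i with hTi
  have hTo : IsOpen T := hT i
  have hbc : ContinuousOn b T := hb.continuousOn
  have hΩ : IsOpen Ω := hUT.opn
  have hS : IsOpen (Sx (R0 + δ) δ) := csx_open _ _
  set b2 : ℂ → ℂ := fun z => if b z ∈ Ω then b z else Γ (b z - c) with hb2
  -- the two pieces are open
  have ev_in : ∀ z ∈ T, b z ∈ Ω → b2 =ᶠ[𝓝 z] b := by
    intro z hz hzΩ
    have h1 : ∀ᶠ w in 𝓝 z, b w ∈ Ω :=
      (hbc.continuousAt (hTo.mem_nhds hz)).eventually_mem (hΩ.mem_nhds hzΩ)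
    filter_upwards [h1] with w hw
    simp only [hb2, if_pos hw]
  have ev_out : ∀ z ∈ T, b z ∉ Ω → b2 =ᶠ[𝓝 z] fun w => Γ (b w - c) := by
    intro z hz hzΩ
    have h0 : b z ∈ Sx (R0 + δ) δ := cmem_uo (h z hz).1 hzΩ
    have h1 : ∀ᶠ w in 𝓝 z, b w ∈ Sx (R0 + δ) δ :=
      (hbc.continuousAt (hTo.mem_nhds hz)).eventually_mem (hS.mem_nhds h0)
    filter_upwards [h1] with w hw
    have hw' : b w ∉ Ω := cout_of hR hw
    simp only [hb2, if_neg hw']
  have hbd : ∀ z ∈ T, HasDerivAt b (deriv b z) z := fun z hz =>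
    ((hb z hz).differentiableAt (hTo.mem_nhds hz)).hasDerivAt
  have hd_in : ∀ z ∈ T, b z ∈ Ω → HasDerivAt b2 (deriv b z) z := by
    intro z hz hzΩ
    exact (hbd z hz).congr_of_eventuallyEq (ev_in z hz hzΩ)
  have hd_out : ∀ z ∈ T, b z ∉ Ω → HasDerivAt b2 (deriv Γ (b z - c) * deriv b z) z := by
    intro z hz hzΩ
    have h0 : b z ∈ Sx (R0 + δ) δ := cmem_uo (h z hz).1 hzΩ
    have h1 : b z - c ∈ Sx 0 δ := csh_mem h0
    have hΓ : HasDerivAt Γ (deriv Γ (b z - c)) (b z - c) :=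
      ((hCg.hol _ h1).differentiableAt ((csx_open 0 δ).mem_nhds h1)).hasDerivAt
    have h2 : HasDerivAt (fun w => b w - c) (deriv b z) z := (hbd z hz).sub_const c
    have h3 : HasDerivAt (fun w => Γ (b w - c)) (deriv Γ (b z - c) * deriv b z) z :=
      HasDerivAt.comp z hΓ h2
    exact h3.congr_of_eventuallyEq (ev_out z hz hzΩ)
  refine ⟨b2, fun z hz => ?_, fun z hz => ?_⟩
  · by_cases hzΩ : b z ∈ Ω
    · exact (hd_in z hz hzΩ).differentiableAt.differentiableWithinAt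
    · exact (hd_out z hz hzΩ).differentiableAt.differentiableWithinAt
  · obtain ⟨h1, h2, h3, h4⟩ := h z hz
    by_cases hzΩ : b z ∈ Ω
    · have e : b2 z = b z := by simp only [hb2, if_pos hzΩ]
      rw [e, (hd_in z hz hzΩ).deriv]
      refine ⟨hzΩ, ?_, h3, fun v => ?_⟩
      · rw [h2, cup_in hzΩ]
      · have h5 := h4 v
        beta_reduce at h5
        rw [cuf_in hzΩ, cup_in hzΩ] at h5
        exact h5
    · have e : b2 z = Γ (b z - c) := by simp only [hb2, if_neg hzΩ]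
      have h0 : b z ∈ Sx (R0 + δ) δ := cmem_uo h1 hzΩ
      have h6 : b z - c ∈ Sx 0 δ := csh_mem h0
      have h7 : deriv Γ (b z - c) ≠ 0 := hCg.d0 _ h6
      have h8 : 0 < ‖deriv Γ (b z - c)‖ := norm_pos_iff.2 h7
      rw [e, (hd_out z hz hzΩ).deriv]
      refine ⟨hCg.maps _ h6, ?_, mul_ne_zero h7 h3, fun v => ?_⟩
      · rw [h2, cup_out hzΩ]
      · have h5 := h4 v
        beta_reduce at h5
        rw [cuf_out hzΩ, cup_out hzΩ] at h5
        rw [h5, norm_mul]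
        have e1 : Real.exp (Pb φ Γ (b z - c) + g (pr (Γ (b z - c)))) =
            Real.exp (φ (Γ (b z - c)) + g (pr (Γ (b z - c)))) * ‖deriv Γ (b z - c)‖ := by
          unfold Pb
          rw [show φ (Γ (b z - c)) + Real.log ‖deriv Γ (b z - c)‖ + g (pr (Γ (b z - c))) =
            (φ (Γ (b z - c)) + g (pr (Γ (b z - c)))) + Real.log ‖deriv Γ (b z - c)‖ by ring,
            Real.exp_add, Real.exp_log h8]
        rw [e1]
        ring

end Pool.Agent.H945.BR
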